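import Pool.Agent.Helper71.SG.Stmt

/-!
Lipschitz dependence of the Sobolev gap on the weight: the answer to Q1 is negative.

For the real reductive group `G = SL(2, R) x SL(2, R)` there is one Harish-Chandra module `V`
such that for every real constant `C` there are a weight `w` and `t ≥ 0` with
`s(V, w_t) > s(V, w) + C t`. All classes involved (minimal and maximal norms for `w` and for
`w_t`) exist, and the inequality holds for every value of the two gaps in `[0, ∞]` (they are in
fact unique).

The definitions are in `Pool/Agent/Helper71/SG/Stmt.lean` and `Pool/Agent/Helper71/SG/Defs.lean`.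
-/

open scoped ENNReal
open Pool.SG (GG IsWeight wt)
open Pool.SGap

namespace Pool.Agent.Results.MP_d7c545_al.SobolevGapNotLipschitz

/-- There is a Harish-Chandra module of `SL(2, R) x SL(2, R)` whose Sobolev gap does not depend
on the weight in a Lipschitz way. -/
theorem result :
    ∃ (V : Type) (_ : AddCommGroup V) (_ : Module ℂ V) (M : GKModule V), IsHC M ∧
      ∀ C : ℝ, ∃ w : GG → ℝ, IsWeight w ∧ ∃ t : ℝ, 0 ≤ t ∧
        (∃ s, IsGap M w s) ∧ (∃ s', IsGap M (wt w t) s') ∧
        ∀ s s', IsGap M w s → IsGap M (wt w t) s' → s + ENNReal.ofReal (C * t) < s' := by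
  refine ⟨Pool.SG.VV, inferInstance, inferInstance, of Pool.SG.MM, isHC_of _ Pool.SG.MM_isHC,
    fun C => ?_⟩
  obtain ⟨w, hw, h1, h2, h3⟩ := Pool.SG.main C
  simp only [isGap_of]
  exact ⟨w, hw, 1 / 2, by norm_num, h1, h2, h3⟩

end Pool.Agent.Results.MP_d7c545_al.SobolevGapNotLipschitz
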